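import Pool.Agent.Helper65.TU.Stmts2

/-! MP_5c2ead_an, project TU, row PROD (helper77). -/

open Set Filter Topology

namespace Pool.Agent.Helper65.TU

universe u v

theorem st_PROD : ST_PROD := by
  intro X Y _ _ _ _ hX hY
  obtain ⟨dX, hdX, HX⟩ := hX
  obtain ⟨dY, hdY, HY⟩ := hY
  refine ⟨min dX dY, lt_min hdX hdY, fun ε hε => ?_⟩
  obtain ⟨FX, hF1, hF2⟩ := HX ε hε
  obtain ⟨FY, hG1, hG2⟩ := HY ε hε
  have p1 : ∀ K : Set (X × Y), WCpt K → K ⊆ Bl (X × Y) →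
      WCpt (ContinuousLinearMap.fst ℝ X Y '' K) ∧ ContinuousLinearMap.fst ℝ X Y '' K ⊆ Bl X := by
    intro K hK hB
    refine ⟨hK.image _, ?_⟩
    rintro _ ⟨z, hz, rfl⟩
    have h1 : ‖z‖ ≤ 1 := hB hz
    have h2 : ‖z.1‖ ≤ ‖z‖ := norm_fst_le z
    exact le_trans h2 h1
  have p2 : ∀ K : Set (X × Y), WCpt K → K ⊆ Bl (X × Y) →
      WCpt (ContinuousLinearMap.snd ℝ X Y '' K) ∧ ContinuousLinearMap.snd ℝ X Y '' K ⊆ Bl Y := by
    intro K hK hB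
    refine ⟨hK.image _, ?_⟩
    rintro _ ⟨z, hz, rfl⟩
    have h1 : ‖z‖ ≤ 1 := hB hz
    have h2 : ‖z.2‖ ≤ ‖z‖ := norm_snd_le z
    exact le_trans h2 h1
  refine ⟨fun K => ContinuousLinearMap.inl ℝ X Y '' FX (ContinuousLinearMap.fst ℝ X Y '' K) ∪
    ContinuousLinearMap.inr ℝ X Y '' FY (ContinuousLinearMap.snd ℝ X Y '' K), ?_, ?_⟩
  · intro K hK hB
    obtain ⟨a1, a2⟩ := p1 K hK hB
    obtain ⟨b1, b2⟩ := p2 K hK hB
    refine ⟨((hF1 _ a1 a2).1.image _).union ((hG1 _ b1 b2).1.image _), ?_⟩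
    rintro z (⟨x, hx, rfl⟩ | ⟨y, hy, rfl⟩)
    · have h1 : ‖x‖ ≤ 1 := (hF1 _ a1 a2).2 hx
      have h2 : ‖((x, 0) : X × Y)‖ ≤ 1 := by
        rw [Prod.norm_mk, norm_zero]
        exact max_le h1 zero_le_one
      exact h2
    · have h1 : ‖y‖ ≤ 1 := (hG1 _ b1 b2).2 hy
      have h2 : ‖((0, y) : X × Y)‖ ≤ 1 := by
        rw [Prod.norm_mk, norm_zero]
        exact max_le zero_le_one h1
      exact h2
  · intro L hL hLB
    obtain ⟨a1, a2⟩ := p1 L hL hLB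
    obtain ⟨b1, b2⟩ := p2 L hL hLB
    obtain ⟨MX, hMX, hMX2⟩ := hF2 _ a1 a2
    obtain ⟨MY, hMY, hMY2⟩ := hG2 _ b1 b2
    refine ⟨{z | ∃ x ∈ ContinuousLinearMap.inl ℝ X Y '' MX,
      ∃ y ∈ ContinuousLinearMap.inr ℝ X Y '' MY, z = x + y}, (hMX.image _).add (hMY.image _), ?_⟩
    intro K hK hB hn
    obtain ⟨c1, c2⟩ := p1 K hK hB
    obtain ⟨d1, d2⟩ := p2 K hK hB
    have nX : Near dX (FX (ContinuousLinearMap.fst ℝ X Y '' K))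
        (ContinuousLinearMap.fst ℝ X Y '' L) := by
      intro x hx
      obtain ⟨y, hy, hxy⟩ := hn (x, 0) (Or.inl ⟨x, hx, rfl⟩)
      refine ⟨y.1, ⟨y, hy, rfl⟩, ?_⟩
      have h1 : ‖(((x, 0) : X × Y) - y).1‖ ≤ ‖((x, 0) : X × Y) - y‖ := norm_fst_le _
      exact le_trans h1 (le_trans hxy (min_le_left _ _))
    have nY : Near dY (FY (ContinuousLinearMap.snd ℝ X Y '' K))
        (ContinuousLinearMap.snd ℝ X Y '' L) := by
      intro x hx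
      obtain ⟨y, hy, hxy⟩ := hn (0, x) (Or.inr ⟨x, hx, rfl⟩)
      refine ⟨y.2, ⟨y, hy, rfl⟩, ?_⟩
      have h1 : ‖(((0, x) : X × Y) - y).2‖ ≤ ‖((0, x) : X × Y) - y‖ := norm_snd_le _
      exact le_trans h1 (le_trans hxy (min_le_right _ _))
    have eX := hMX2 _ c1 c2 nX
    have eY := hMY2 _ d1 d2 nY
    intro z hz
    obtain ⟨a, ha, haz⟩ := eX z.1 ⟨z, hz, rfl⟩
    obtain ⟨b, hb, hbz⟩ := eY z.2 ⟨z, hz, rfl⟩
    refine ⟨(a, b), ⟨(a, 0), ⟨a, ha, rfl⟩, (0, b), ⟨b, hb, rfl⟩, by simp⟩, ?_⟩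
    have h1 : z - (a, b) = (z.1 - a, z.2 - b) := rfl
    rw [h1, Prod.norm_mk]
    exact max_le haz hbz

end Pool.Agent.Helper65.TU
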