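import Pool.Agent.Helper65.TU.Stmts2

/-! MP_5c2ead_an, project TU, row RFL (helper77). -/

open Set Filter Topology

namespace Pool.Agent.Helper65.TU

universe u v

theorem rfl_cpt (V : Type u) [NormedAddCommGroup V] [NormedSpace ℝ V] :
    IsCompact {φ : WeakDual ℝ V | ∀ v, |φ v| ≤ ‖v‖} := by
  have h1 := WeakDual.isCompact_closedBall (𝕜 := ℝ) (E := V) 0 1
  have h2 : WeakDual.toStrongDual ⁻¹' Metric.closedBall (0 : StrongDual ℝ V) 1 =
      {φ : WeakDual ℝ V | ∀ v, |φ v| ≤ ‖v‖} := by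
    ext φ
    rw [mem_preimage, mem_closedBall_zero_iff]
    constructor
    · intro h v
      have h3 := (WeakDual.toStrongDual φ).le_of_opNorm_le h v
      rw [one_mul] at h3
      exact h3
    · intro h
      refine ContinuousLinearMap.opNorm_le_bound _ zero_le_one fun v => ?_
      rw [one_mul]
      exact h v
  rwa [h2] at h1

theorem rfl_ball (X : Type u) [NormedAddCommGroup X] [NormedSpace ℝ X] (h : Reflexive X) :
    WCpt (Bl X) := by
  have key : ∀ φ : WeakDual ℝ (X →L[ℝ] ℝ), ∃ x : X, ∀ f : X →L[ℝ] ℝ, f x = φ f := by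
    intro φ
    obtain ⟨x, hx⟩ := h (WeakDual.toStrongDual φ)
    refine ⟨x, fun f => ?_⟩
    have h1 : NormedSpace.inclusionInDoubleDual ℝ X x f = WeakDual.toStrongDual φ f := by rw [hx]
    exact h1
  choose g hg using key
  have h1 := wcpt_image (X := X) (A := WeakDual ℝ (X →L[ℝ] ℝ))
    (rfl_cpt (X →L[ℝ] ℝ)) (h := g)
    (fun f => by
      have h2 : (fun a => f (g a)) = fun a : WeakDual ℝ (X →L[ℝ] ℝ) => a f := by
        funext a
        exact hg a f
      rw [h2]
      exact (WeakDual.eval_continuous f).continuousOn)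
  have h3 : g '' {φ : WeakDual ℝ (X →L[ℝ] ℝ) | ∀ v, |φ v| ≤ ‖v‖} = Bl X := by
    ext x
    constructor
    · rintro ⟨φ, hφ, rfl⟩
      have h7 : ‖g φ‖ ≤ 1 := by
        refine NormedSpace.norm_le_dual_bound ℝ (g φ) zero_le_one fun f => ?_
        rw [one_mul, hg, Real.norm_eq_abs]
        exact hφ f
      exact h7
    · intro hx
      have hx1 : ‖x‖ ≤ 1 := hx
      refine ⟨StrongDual.toWeakDual (NormedSpace.inclusionInDoubleDual ℝ X x), ?_, ?_⟩
      · intro f
        have h8 : |f x| ≤ ‖f‖ := by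
          have h9 := f.le_opNorm x
          rw [Real.norm_eq_abs] at h9
          have h10 : ‖f‖ * ‖x‖ ≤ ‖f‖ * 1 := mul_le_mul_of_nonneg_left hx1 (norm_nonneg f)
          linarith
        exact h8
      · refine sep_points fun f => ?_
        rw [hg]
        rfl
  rwa [h3] at h1

theorem st_RFL : ST_RFL := by
  intro X _ _ h
  refine ⟨1, one_pos, fun ε hε => ⟨fun _ => ∅, fun K _ _ => ⟨wcpt_empty, empty_subset _⟩,
    fun L _ _ => ⟨Bl X, rfl_ball X h, fun K _ hK _ x hx => ⟨x, hK hx, ?_⟩⟩⟩⟩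
  rw [sub_self, norm_zero]
  exact hε.le

end Pool.Agent.Helper65.TU
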