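import Pool.Agent.Helper65.TU.Stmts5
import Pool.Agent.Helper65.TU.Basic

/-! Row RQ2: extensions of reflexive subspaces. -/

open Set Filter Topology

namespace Pool.Agent.Helper65.TU

universe u

theorem rq2_shrink {Z : Type u} [NormedAddCommGroup Z] [NormedSpace ℝ Z] (r : ℝ) (hr : 1 ≤ r)
    (z w : Z) (t : ℝ) (h1 : ‖z - w‖ ≤ t) (h2 : ‖w‖ ≤ r) : ‖z - r⁻¹ • w‖ ≤ t + (r - 1) := by
  have hr0 : 0 < r := by linarith
  have e7 : ‖w - r⁻¹ • w‖ ≤ r - 1 := by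
    have e8 : w - r⁻¹ • w = (1 - r⁻¹) • w := by rw [sub_smul, one_smul]
    have e9 : 0 ≤ 1 - r⁻¹ := by
      rw [sub_nonneg]
      exact inv_le_one_of_one_le₀ hr
    rw [e8, norm_smul, Real.norm_of_nonneg e9]
    calc (1 - r⁻¹) * ‖w‖ ≤ (1 - r⁻¹) * r := mul_le_mul_of_nonneg_left h2 e9
      _ = r - 1 := by field_simp
  calc ‖z - r⁻¹ • w‖ = ‖(z - w) + (w - r⁻¹ • w)‖ := by
        congr 1; abel
    _ ≤ t + (r - 1) := (norm_add_le _ _).trans (add_le_add h1 e7)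

theorem st_RQ2 (h1 : ST_RQ1.{u}) : ST_RQ2.{u} := by
  intro X Z _ _ _ _ a T hT δ hδ H ε hε
  have ha1 := hT.one
  have ha0 : 0 < a := by linarith
  obtain ⟨F, hF, hM⟩ := H (ε / a ^ 2) (by positivity)
  let P : X →L[ℝ] Z := a⁻¹ • T
  have hP : ∀ x, P x = a⁻¹ • T x := fun x => rfl
  have hPn : ∀ x, ‖P x‖ ≤ ‖x‖ := by
    intro x
    rw [hP, norm_smul, Real.norm_of_nonneg (inv_nonneg.2 ha0.le)]
    calc a⁻¹ * ‖T x‖ ≤ a⁻¹ * (a * ‖x‖) :=
          mul_le_mul_of_nonneg_left (hT.nrm x) (inv_nonneg.2 ha0.le)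
      _ = ‖x‖ := by field_simp
  have hPK : ∀ K : Set X, WCpt K → K ⊆ Bl X → WCpt (P '' K) ∧ P '' K ⊆ Bl Z := by
    intro K hK hKB
    refine ⟨hK.image P, ?_⟩
    rintro _ ⟨y, hy, rfl⟩
    exact (hPn y).trans (hKB hy)
  refine ⟨fun K => (fun x => a⁻¹ • x) '' {x : X | T x ∈ F (P '' K) ∧ ‖x‖ ≤ a},
    fun K hK hKB => ?_, fun L hL hLB => ?_⟩
  · obtain ⟨h2, h3⟩ := hPK K hK hKB
    obtain ⟨h4, h5⟩ := hF _ h2 h3
    refine ⟨(h1 X Z a T hT _ h4 a).smul a⁻¹, ?_⟩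
    rintro _ ⟨x, hx, rfl⟩
    show ‖a⁻¹ • x‖ ≤ 1
    rw [norm_smul, Real.norm_of_nonneg (inv_nonneg.2 ha0.le), inv_mul_le_iff₀ ha0, mul_one]
    exact hx.2
  · set r : ℝ := 1 + δ / 2 with hr
    have hr0 : 0 < r := by positivity
    have hr1 : 1 ≤ r := by rw [hr]; linarith
    let L1 : Set Z := {z | z ∈ (a • T) '' L ∧ ‖z‖ ≤ r}
    let L2 : Set Z := (fun z => r⁻¹ • z) '' L1
    have hL1 : WCpt L1 := (hL.image (a • T)).inter_ball r
    have hL2 : WCpt L2 := hL1.smul r⁻¹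
    have hL2B : L2 ⊆ Bl Z := by
      rintro _ ⟨x, hx, rfl⟩
      show ‖r⁻¹ • x‖ ≤ 1
      rw [norm_smul, Real.norm_of_nonneg (inv_nonneg.2 hr0.le), inv_mul_le_iff₀ hr0, mul_one]
      exact hx.2
    obtain ⟨M, hM1, hM2⟩ := hM L2 hL2 hL2B
    refine ⟨{x : X | T x ∈ (fun z => a • z) '' M ∧ ‖x‖ ≤ 1 + ε},
      h1 X Z a T hT _ (hM1.smul a) (1 + ε), fun K hK hKB hN => ?_⟩
    obtain ⟨h2, h3⟩ := hPK K hK hKB
    obtain ⟨h4, h5⟩ := hF _ h2 h3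
    have hN1 : Near δ (F (P '' K)) L2 := by
      intro z hz
      obtain ⟨x, hxz, hxn⟩ := hT.lift z
      have hz1 : ‖z‖ ≤ 1 := h5 hz
      have hxa : ‖x‖ ≤ a := by
        calc ‖x‖ ≤ a * ‖z‖ := hxn
          _ ≤ a * 1 := mul_le_mul_of_nonneg_left hz1 ha0.le
          _ = a := mul_one a
      obtain ⟨l, hl, hxl⟩ := hN (a⁻¹ • x) ⟨x, ⟨by rw [hxz]; exact hz, hxa⟩, rfl⟩
      have e2 : ‖z - (a • T) l‖ ≤ δ / 2 := by
        have e3 : z - (a • T) l = a • T (a⁻¹ • x - l) := by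
          rw [map_sub, map_smul, smul_sub, smul_smul, mul_inv_cancel₀ ha0.ne', one_smul, hxz]
          rfl
        rw [e3, norm_smul, Real.norm_of_nonneg ha0.le]
        calc a * ‖T (a⁻¹ • x - l)‖ ≤ a * (a * (δ / (2 * a ^ 2))) :=
              mul_le_mul_of_nonneg_left
                ((hT.nrm _).trans (mul_le_mul_of_nonneg_left hxl ha0.le)) ha0.le
          _ = δ / 2 := by field_simp
      have e5 : ‖(a • T) l‖ ≤ r := by
        have e6 := norm_sub_norm_le ((a • T) l) z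
        rw [norm_sub_rev] at e6
        rw [hr]
        linarith
      refine ⟨r⁻¹ • (a • T) l, ⟨_, ⟨⟨l, hl, rfl⟩, e5⟩, rfl⟩, ?_⟩
      have e7 := rq2_shrink r hr1 z ((a • T) l) (δ / 2) e2 e5
      have e8 : δ / 2 + (r - 1) = δ := by rw [hr]; ring
      rw [e8] at e7
      exact e7
    have hN2 := hM2 _ h2 h3 hN1
    intro x hx
    obtain ⟨m, hm, hxm⟩ := hN2 (P x) ⟨x, hx, rfl⟩
    obtain ⟨w, hw1, hw2⟩ := hT.lift (T x - a • m)
    have e1 : ‖T x - a • m‖ ≤ ε / a := by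
      have e3 : T x - a • m = a • (P x - m) := by
        rw [hP, smul_sub, smul_smul, mul_inv_cancel₀ ha0.ne', one_smul]
      rw [e3, norm_smul, Real.norm_of_nonneg ha0.le]
      calc a * ‖P x - m‖ ≤ a * (ε / a ^ 2) := mul_le_mul_of_nonneg_left hxm ha0.le
        _ = ε / a := by field_simp
    have e2 : ‖w‖ ≤ ε := by
      calc ‖w‖ ≤ a * ‖T x - a • m‖ := hw2
        _ ≤ a * (ε / a) := mul_le_mul_of_nonneg_left e1 ha0.le
        _ = ε := by field_simp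
    have hx1 : ‖x‖ ≤ 1 := hKB hx
    refine ⟨x - w, ⟨⟨m, hm, ?_⟩, ?_⟩, ?_⟩
    · show a • m = T (x - w)
      rw [map_sub, hw1]
      abel
    · exact (norm_sub_le _ _).trans (add_le_add hx1 e2)
    · rw [sub_sub_cancel]
      exact e2

end Pool.Agent.Helper65.TU
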