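import Pool.Agent.Helper65.TU.Stmts4
import Pool.Agent.Helper13.TU.SCH

/-! Row T1: uniform tails of weakly compact sets in an l_1-sum. -/

open Set Filter Topology
open scoped ENNReal

namespace Pool.Agent.Helper65.TU

universe u v

section aux

variable {Γ : Type v} {X : Γ → Type u} [∀ g, NormedAddCommGroup (X g)]
  [∀ g, NormedSpace ℝ (X g)]

theorem t1_summ (x : lp X 1) : Summable fun g => ‖x g‖ := by
  have h := (lp.memℓp x).summable (by simp)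
  simpa using h

theorem t1_norm (x : lp X 1) : ‖x‖ = ∑' g, ‖x g‖ := by
  rw [lp.norm_eq_tsum_rpow (by simp) x]
  simp

theorem t1_ab (c t a : ℝ) (hc : |c| ≤ 1) (h : |t| ≤ a) : |c * t| ≤ a := by
  rw [abs_mul]
  calc |c| * |t| ≤ 1 * |t| := mul_le_mul_of_nonneg_right hc (abs_nonneg _)
    _ ≤ a := by rw [one_mul]; exact h

theorem t1_psi (ψ : (g : Γ) → X g →L[ℝ] ℝ) (hψ : ∀ g, ‖ψ g‖ ≤ 1) (g : Γ) (w : X g) :
    |ψ g w| ≤ ‖w‖ := by
  have h := (ψ g).le_of_opNorm_le (hψ g) w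
  rw [one_mul, Real.norm_eq_abs] at h
  exact h

theorem t1_sum (ψ : (g : Γ) → X g →L[ℝ] ℝ) (hψ : ∀ g, ‖ψ g‖ ≤ 1) (s : Γ → ℝ)
    (hs : ∀ g, |s g| ≤ 1) (x : lp X 1) : Summable fun g => s g * ψ g (x g) :=
  Summable.of_norm_bounded (t1_summ x) fun g => by
    rw [Real.norm_eq_abs]
    exact t1_ab _ _ _ (hs g) (t1_psi ψ hψ g (x g))

/-- the functional. -/
noncomputable def t1_f (ψ : (g : Γ) → X g →L[ℝ] ℝ) (hψ : ∀ g, ‖ψ g‖ ≤ 1) (s : Γ → ℝ)
    (hs : ∀ g, |s g| ≤ 1) : lp X 1 →L[ℝ] ℝ :=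
  LinearMap.mkContinuous
    { toFun := fun x => ∑' g, s g * ψ g (x g)
      map_add' := fun x y => by
        rw [← (t1_sum ψ hψ s hs x).tsum_add (t1_sum ψ hψ s hs y)]
        refine tsum_congr fun g => ?_
        rw [lp.coeFn_add, Pi.add_apply, map_add, mul_add]
      map_smul' := fun c x => by
        rw [RingHom.id_apply, smul_eq_mul, ← tsum_mul_left]
        refine tsum_congr fun g => ?_
        rw [lp.coeFn_smul, Pi.smul_apply, map_smul, smul_eq_mul]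
        ring } 1 fun x => by
    rw [one_mul, t1_norm]
    change ‖∑' g, s g * ψ g (x g)‖ ≤ _
    refine tsum_of_norm_bounded (t1_summ x).hasSum fun g => ?_
    rw [Real.norm_eq_abs]
    exact t1_ab _ _ _ (hs g) (t1_psi ψ hψ g (x g))

theorem t1_f_apply (ψ : (g : Γ) → X g →L[ℝ] ℝ) (hψ : ∀ g, ‖ψ g‖ ≤ 1) (s : Γ → ℝ)
    (hs : ∀ g, |s g| ≤ 1) (x : lp X 1) : t1_f ψ hψ s hs x = ∑' g, s g * ψ g (x g) := rfl

/-- blocks of a summable family tend to 0. -/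
theorem t1_blk (a : Γ → ℝ) (ha : Summable a) (h0 : ∀ g, 0 ≤ a g) (F : ℕ → Finset Γ)
    (hF : Monotone F) :
    Tendsto (fun n => ∑ g ∈ F (n + 1), a g - ∑ g ∈ F n, a g) atTop (𝓝 0) := by
  have h1 : Monotone fun n => ∑ g ∈ F n, a g := fun m n h =>
    Finset.sum_le_sum_of_subset_of_nonneg (hF h) fun g _ _ => h0 g
  have h2 : BddAbove (range fun n => ∑ g ∈ F n, a g) := by
    refine ⟨∑' g, a g, ?_⟩
    rintro _ ⟨n, rfl⟩
    exact ha.sum_le_tsum _ fun g _ => h0 g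
  have h3 := tendsto_atTop_ciSup h1 h2
  have h4 := (h3.comp (tendsto_add_atTop_nat 1)).sub h3
  rw [sub_self] at h4
  exact h4

end aux

theorem st_T1 (hES : ST_ES.{max u v}) : ST_T1.{u, v} := by
  classical
  intro Γ X _ _ K hK ε hε
  by_contra hcon
  have hbad : ∀ F : Finset Γ, ∃ x : lp X 1, x ∈ K ∧ ∃ S : Finset Γ,
      ε ≤ ∑ g ∈ S \ F, ‖x g‖ := by
    intro F
    by_contra h
    apply hcon
    refine ⟨F, fun x hx y hy hyx => ?_⟩
    by_contra hlt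
    rw [not_le] at hlt
    apply h
    refine ⟨x, hx, ?_⟩
    rw [t1_norm] at hlt
    have h1 := (t1_summ y).hasSum.eventually (lt_mem_nhds hlt)
    obtain ⟨S, hS⟩ := h1.exists
    refine ⟨S, ?_⟩
    have h2 : ∑ g ∈ S, ‖y g‖ = ∑ g ∈ S \ F, ‖y g‖ := by
      symm
      apply Finset.sum_subset Finset.sdiff_subset
      intro g hg hg'
      have hgF : g ∈ F := by
        by_contra h3
        exact hg' (Finset.mem_sdiff.2 ⟨hg, h3⟩)
      rw [hy g hgF, norm_zero]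
    rw [h2] at hS
    exact le_trans hS.le (Finset.sum_le_sum fun g _ => hyx g)
  choose x hxK S hS using hbad
  -- the finite sets
  let Fs : ℕ → Finset Γ := fun n => Nat.rec ∅ (fun _ F => F ∪ S F) n
  have hFs : ∀ n, Fs (n + 1) = Fs n ∪ S (Fs n) := fun n => rfl
  have hmono : Monotone Fs := monotone_nat_of_le_succ fun n => by
    rw [hFs n]; exact Finset.subset_union_left
  have hdiff : ∀ n, Fs (n + 1) \ Fs n = S (Fs n) \ Fs n := by
    intro n
    rw [hFs n]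
    ext g
    simp only [Finset.mem_sdiff, Finset.mem_union]
    tauto
  -- the functionals
  let N : Γ → ℕ := fun g => sInf {n | g ∈ Fs (n + 1)}
  have hN : ∀ n, ∀ g ∈ Fs (n + 1) \ Fs n, N g = n := by
    intro n g hg
    obtain ⟨hg1, hg2⟩ := Finset.mem_sdiff.1 hg
    have h1 : N g ≤ n := Nat.sInf_le hg1
    have h2 : g ∈ Fs (N g + 1) := Nat.sInf_mem (s := {n | g ∈ Fs (n + 1)}) ⟨n, hg1⟩
    by_contra h3
    exact hg2 (hmono (by omega : N g + 1 ≤ n) h2)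
  have hψ' : ∀ g : Γ, ∃ f : X g →L[ℝ] ℝ, ‖f‖ ≤ 1 ∧ f (x (Fs (N g)) g) = ‖x (Fs (N g)) g‖ :=
    fun g => exists_dual_vector'' ℝ (x (Fs (N g)) g)
  choose ψ hψ1 hψ2 using hψ'
  have hblock : ∀ n, ε ≤ ∑ g ∈ Fs (n + 1) \ Fs n, ψ g (x (Fs n) g) := by
    intro n
    calc ε ≤ ∑ g ∈ S (Fs n) \ Fs n, ‖x (Fs n) g‖ := hS (Fs n)
      _ = ∑ g ∈ Fs (n + 1) \ Fs n, ψ g (x (Fs n) g) := by
          rw [hdiff n]
          refine Finset.sum_congr rfl fun g hg => ?_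
          have h1 := hN n g (by rw [hdiff n]; exact hg)
          have h2 := hψ2 g
          rw [h1] at h2
          exact h2.symm
  -- Eberlein-Smulian and Schur
  obtain ⟨φ, hφ, z, hzK, hz⟩ := hES (lp X 1) K hK (fun n => x (Fs n)) (fun n => hxK _)
  have hsch := st_SCH Γ (fun k g => ψ g ((x (Fs (φ k)) - z : lp X 1) g))
    (fun k => (Summable.of_norm_bounded (t1_summ (x (Fs (φ k)) - z)) fun g => by
      rw [Real.norm_eq_abs, abs_abs]
      exact t1_psi ψ hψ1 g _))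
    (fun s hs => by
      have h1 := hz (t1_f ψ hψ1 s hs)
      have h2 := h1.sub_const (t1_f ψ hψ1 s hs z)
      rw [sub_self] at h2
      refine h2.congr fun k => ?_
      rw [← map_sub, t1_f_apply])
  have hblk := (t1_blk (fun g => ‖z g‖) (t1_summ z) (fun g => norm_nonneg _) Fs hmono).comp
    hφ.tendsto_atTop
  have hlim := hsch.add hblk
  rw [add_zero] at hlim
  obtain ⟨k, hk⟩ := (hlim.eventually (gt_mem_nhds hε)).exists
  have h5 := hblock (φ k)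
  have h6 : ∑ g ∈ Fs (φ k + 1) \ Fs (φ k), ψ g (x (Fs (φ k)) g) ≤
      ∑ g ∈ Fs (φ k + 1) \ Fs (φ k), (|ψ g ((x (Fs (φ k)) - z : lp X 1) g)| + ‖z g‖) := by
    refine Finset.sum_le_sum fun g _ => ?_
    have h7 : ψ g (x (Fs (φ k)) g) = ψ g ((x (Fs (φ k)) - z : lp X 1) g) + ψ g (z g) := by
      rw [lp.coeFn_sub, Pi.sub_apply, map_sub]; ring
    rw [h7]
    exact add_le_add (le_abs_self _) (le_trans (le_abs_self _) (t1_psi ψ hψ1 g _))
  rw [Finset.sum_add_distrib] at h6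
  have h8 : ∑ g ∈ Fs (φ k + 1) \ Fs (φ k), |ψ g ((x (Fs (φ k)) - z : lp X 1) g)| ≤
      ∑' g, |ψ g ((x (Fs (φ k)) - z : lp X 1) g)| :=
    (Summable.of_norm_bounded (t1_summ (x (Fs (φ k)) - z)) fun g => by
      rw [Real.norm_eq_abs, abs_abs]
      exact t1_psi ψ hψ1 g _).sum_le_tsum _ fun g _ => abs_nonneg _
  have h9 : ∑ g ∈ Fs (φ k + 1) \ Fs (φ k), ‖z g‖ =
      ∑ g ∈ Fs (φ k + 1), ‖z g‖ - ∑ g ∈ Fs (φ k), ‖z g‖ :=
    eq_sub_of_add_eq (Finset.sum_sdiff (hmono (Nat.le_succ _)))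
  simp only [Function.comp] at hk
  linarith

end Pool.Agent.Helper65.TU
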